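import Mathlib

set_option autoImplicit false

/-!
Conductors of cubic Dirichlet characters.
-/

namespace Pool.Agent.R524.Cubic

open Finset

/-- `q` is a product of distinct primes `p` with `p % 3 = 1` and possibly of the factor `9` -/
def Good (q : ℕ) : Prop :=
  ∀ p : ℕ, p.Prime → p ∣ q → (p % 3 = 1 ∧ ¬ p ^ 2 ∣ q) ∨ (p = 3 ∧ 3 ^ 2 ∣ q ∧ ¬ 3 ^ 3 ∣ q)

lemma pow_modEq_one {p d a : ℕ} (hp : p ∣ d) (ha : a ≡ 1 [MOD d]) :
    a ^ p ≡ 1 [MOD (p * d)] := by
  rw [Nat.modEq_iff_dvd]
  have h1 : (d : ℤ) ∣ (a : ℤ) - 1 := by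
    have := (Nat.modEq_iff_dvd.mp ha.symm)
    exact_mod_cast this
  have h2 : (p : ℤ) ∣ (a : ℤ) - 1 := (Int.natCast_dvd_natCast.mpr hp).trans h1
  have h3 : (∑ i ∈ range p, (a : ℤ) ^ i) * ((a : ℤ) - 1) = (a : ℤ) ^ p - 1 := geom_sum_mul _ _
  have h4 : (p : ℤ) ∣ ∑ i ∈ range p, (a : ℤ) ^ i := by
    have h5 : ∑ i ∈ range p, (a : ℤ) ^ i = ∑ i ∈ range p, ((a : ℤ) ^ i - 1) + p := by
      rw [sum_sub_distrib]; simp
    rw [h5]
    apply dvd_add _ (dvd_refl _)
    apply dvd_sum
    intro i _
    have := sub_dvd_pow_sub_pow (a : ℤ) 1 i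
    rw [one_pow] at this
    exact h2.trans this
  have h5 : ((p * d : ℕ) : ℤ) ∣ (a : ℤ) ^ p - 1 := by
    rw [← h3]; push_cast
    exact mul_dvd_mul h4 h1
  push_cast
  have h6 : (1 : ℤ) - (a : ℤ) ^ p = -((a : ℤ) ^ p - 1) := by ring
  rw [h6, dvd_neg]
  exact_mod_cast h5

lemma eq_one_of_pow {z : ℂˣ} {m : ℕ} (h3 : z ^ 3 = 1) (hm : z ^ m = 1) (hc : m.Coprime 3) :
    z = 1 := by
  have h := orderOf_dvd_of_pow_eq_one h3
  have h' := orderOf_dvd_of_pow_eq_one hm
  have : orderOf z ∣ 1 := by
    rw [← hc]; exact Nat.dvd_gcd h' h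
  rw [Nat.dvd_one, orderOf_eq_one_iff] at this
  exact this

lemma good_of_primitive {f : ℕ} (hf : f ≠ 0) (χ : DirichletCharacter ℂ f) (h3 : χ ^ 3 = 1)
    (hprim : χ.IsPrimitive) : Good f := by
  haveI : NeZero f := ⟨hf⟩
  intro p hp hpf
  by_contra hcon
  obtain ⟨d, hd⟩ := hpf
  have hd0 : d ≠ 0 := by
    rintro rfl; exact hf (by rw [hd, mul_zero])
  have hdf : d ∣ f := ⟨p, by rw [hd, mul_comm]⟩
  haveI : NeZero d := ⟨hd0⟩
  have hfac : χ.FactorsThrough d := by
    rw [DirichletCharacter.factorsThrough_iff_ker_unitsMap hdf]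
    intro u hu
    rw [MonoidHom.mem_ker] at hu ⊢
    have hz3 : (χ.toUnitHom u) ^ 3 = 1 := by
      rw [← Units.val_inj]
      push_cast
      rw [MulChar.coe_toUnitHom]
      have := congrArg (fun ψ : DirichletCharacter ℂ f => ψ (u : ZMod f)) h3
      rw [MulChar.pow_apply_coe] at this
      rw [this, MulChar.one_apply_coe]
    set a : ℕ := (u : ZMod f).val with ha
    have hau : (a : ZMod f) = (u : ZMod f) := by rw [ha]; exact ZMod.natCast_zmod_val _
    have had : a ≡ 1 [MOD d] := by
      rw [← ZMod.natCast_eq_natCast_iff]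
      have h1 := congrArg (fun v : (ZMod d)ˣ => (v : ZMod d)) hu
      simp only [ZMod.unitsMap_val, Units.val_one] at h1
      rw [ha, ZMod.natCast_val, h1, Nat.cast_one]
    have hcop : a.Coprime f := by
      rw [← ZMod.isUnit_iff_coprime, hau]; exact u.isUnit
    by_cases hp3 : p = 3
    · subst hp3
      by_cases h27 : 3 ^ 3 ∣ f
      · -- `u` is a cube
        obtain ⟨e, he⟩ : 9 ∣ d := by
          obtain ⟨t, ht⟩ := h27
          exact ⟨t, by omega⟩
        obtain ⟨x, hx⟩ : ∃ x : ℤ, (a : ℤ) = 1 + d * x := by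
          have := (Nat.modEq_iff_dvd.mp had.symm)
          obtain ⟨x, hx⟩ := this
          exact ⟨x, by push_cast at hx; linarith⟩
        set v : ZMod f := ((1 + 3 * e * x : ℤ) : ZMod f) with hv
        have hv3 : v ^ 3 = (u : ZMod f) := by
          rw [← hau, hv]
          have h1 : ((a : ℕ) : ZMod f) = (((1 + d * x : ℤ)) : ZMod f) := by
            rw [← hx]; simp
          rw [h1, ← Int.cast_pow, ← sub_eq_zero, ← Int.cast_sub]
          rw [ZMod.intCast_zmod_eq_zero_iff_dvd]
          refine ⟨e * x ^ 2 + e ^ 2 * x ^ 3, ?_⟩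
          rw [hd, he]; push_cast; ring
        have hvu : IsUnit v := by
          have : IsUnit (v ^ 3) := by rw [hv3]; exact u.isUnit
          exact (isUnit_pow_iff (by norm_num)).mp this
        have h2 : χ.toUnitHom u = (χ.toUnitHom hvu.unit) ^ 3 := by
          rw [← map_pow]
          congr 1
          rw [← Units.val_inj]
          push_cast
          rw [IsUnit.unit_spec, hv3]
        rw [h2, ← Units.val_inj]
        push_cast
        rw [MulChar.coe_toUnitHom]
        have := congrArg (fun ψ : DirichletCharacter ℂ f => ψ (hvu.unit : ZMod f)) h3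
        rw [MulChar.pow_apply_coe] at this
        rw [this, MulChar.one_apply_coe]
      · have h9 : ¬ 3 ^ 2 ∣ f := fun h => hcon (Or.inr ⟨rfl, h, h27⟩)
        have h3d : ¬ 3 ∣ d := by
          rintro ⟨t, ht⟩
          exact h9 ⟨t, by omega⟩
        have hc3 : Nat.Coprime 3 d := (Nat.Prime.coprime_iff_not_dvd hp).mpr h3d
        have ha3 : a.Coprime 3 := Nat.Coprime.coprime_dvd_right ⟨d, hd⟩ hcop
        have h1 : a ^ 2 ≡ 1 [MOD 3] := by
          have := Nat.ModEq.pow_totient ha3
          rwa [Nat.totient_prime hp] at this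
        have h2 : a ^ 2 ≡ 1 [MOD d] := by
          have := had.pow 2
          rwa [one_pow] at this
        have h4 : a ^ 2 ≡ 1 [MOD 3 * d] := (Nat.modEq_and_modEq_iff_modEq_mul hc3).mp ⟨h1, h2⟩
        have h5 : u ^ 2 = 1 := by
          rw [← Units.val_inj]; push_cast
          rw [← hau]
          rw [← hd] at h4
          have := (ZMod.natCast_eq_natCast_iff _ _ _).mpr h4
          exact_mod_cast this
        exact eq_one_of_pow hz3 (m := 2) (by rw [← map_pow, h5, map_one]) (by norm_num)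
    · by_cases hpp : p ^ 2 ∣ f
      · have hpd : p ∣ d := by
          obtain ⟨t, ht⟩ := hpp
          refine ⟨t, ?_⟩
          have : p * d = p * (p * t) := by rw [← hd, ht]; ring
          exact Nat.eq_of_mul_eq_mul_left hp.pos this
        have h4 := pow_modEq_one hpd had
        have h5 : u ^ p = 1 := by
          rw [← Units.val_inj]; push_cast
          rw [← hau]
          rw [← hd] at h4
          have := (ZMod.natCast_eq_natCast_iff _ _ _).mpr h4
          exact_mod_cast this
        refine eq_one_of_pow hz3 (m := p) (by rw [← map_pow, h5, map_one]) ?_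
        exact (Nat.coprime_primes hp Nat.prime_three).mpr hp3
      · have hp1 : p % 3 ≠ 1 := fun h => hcon (Or.inl ⟨h, hpp⟩)
        have hpd : ¬ p ∣ d := by
          rintro ⟨t, ht⟩
          exact hpp ⟨t, by rw [hd, ht]; ring⟩
        have hc : Nat.Coprime p d := (Nat.Prime.coprime_iff_not_dvd hp).mpr hpd
        have hap : a.Coprime p := Nat.Coprime.coprime_dvd_right ⟨d, hd⟩ hcop
        have h1 : a ^ (p - 1) ≡ 1 [MOD p] := by
          have := Nat.ModEq.pow_totient hap
          rwa [Nat.totient_prime hp] at this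
        have h2 : a ^ (p - 1) ≡ 1 [MOD d] := by
          have := had.pow (p - 1)
          rwa [one_pow] at this
        have h4 : a ^ (p - 1) ≡ 1 [MOD p * d] := (Nat.modEq_and_modEq_iff_modEq_mul hc).mp ⟨h1, h2⟩
        have h5 : u ^ (p - 1) = 1 := by
          rw [← Units.val_inj]; push_cast
          rw [← hau]
          rw [← hd] at h4
          have := (ZMod.natCast_eq_natCast_iff _ _ _).mpr h4
          exact_mod_cast this
        refine eq_one_of_pow hz3 (m := p - 1) (by rw [← map_pow, h5, map_one]) ?_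
        rw [Nat.coprime_comm, Nat.Prime.coprime_iff_not_dvd Nat.prime_three]
        intro h
        have hp2 := hp.two_le
        have h30 : ¬ 3 ∣ p := fun h => hp3 ((Nat.prime_dvd_prime_iff_eq Nat.prime_three hp).mp h).symm
        omega
  have h1 : χ.conductor ≤ d := Nat.sInf_le ((DirichletCharacter.mem_conductorSet_iff χ).mpr hfac)
  rw [hprim] at h1
  have hp2 := hp.two_le
  have : 2 * d ≤ f := by rw [hd]; exact Nat.mul_le_mul_right _ hp2
  omega

end Pool.Agent.R524.Cubic
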