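import Pool.Agent.R524.Cubic.Cond
import Pool.Agent.H343R2.PV
import Pool.Agent.H353R2.Z2

set_option autoImplicit false

/-!
Incomplete sums of Dirichlet characters: reduction to the primitive character.
-/

namespace Pool.Agent.R524.Cubic

open Finset

/-- `S_χ(M,N)`: the sum of `χ(a)` over the integers `a` with `M < a ≤ M + N` -/
noncomputable def S {q : ℕ} (χ : DirichletCharacter ℂ q) (M : ℤ) (N : ℕ) : ℂ :=
  ∑ a ∈ Finset.Ioc M (M + (N : ℤ)), χ (a : ZMod q)

lemma sum_Ioc_int {β : Type*} [AddCommMonoid β] (f : ℤ → β) (M : ℤ) (N : ℕ) :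
    ∑ a ∈ Finset.Ioc M (M + (N : ℤ)), f a = ∑ i ∈ range N, f (M + 1 + i) := by
  induction N with
  | zero => simp
  | succ N ih =>
    rw [sum_range_succ, ← ih]
    have : Finset.Ioc M (M + ((N + 1 : ℕ) : ℤ)) = insert (M + 1 + N) (Finset.Ioc M (M + (N : ℤ))) := by
      ext x
      simp only [mem_Ioc, mem_insert]
      push_cast
      omega
    rw [this, sum_insert (by simp only [mem_Ioc]; omega), add_comm]

lemma sum_Ioc_nat {β : Type*} [AddCommMonoid β] (f : ℕ → β) (A N : ℕ) :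
    ∑ a ∈ Finset.Ioc A (A + N), f a = ∑ i ∈ range N, f (A + 1 + i) := by
  induction N with
  | zero => simp
  | succ N ih =>
    rw [sum_range_succ, ← ih]
    have : Finset.Ioc A (A + (N + 1)) = insert (A + 1 + N) (Finset.Ioc A (A + N)) := by
      ext x
      simp only [mem_Ioc, mem_insert]
      omega
    rw [this, sum_insert (by simp only [mem_Ioc]; omega), add_comm]

lemma S_eq_range {q : ℕ} (χ : DirichletCharacter ℂ q) (M : ℤ) (N : ℕ) :
    S χ M N = ∑ i ∈ range N, χ ((M + 1 + i : ℤ) : ZMod q) := sum_Ioc_int _ _ _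

lemma S_natCast {q : ℕ} (χ : DirichletCharacter ℂ q) (A N : ℕ) :
    S χ (A : ℤ) N = ∑ a ∈ Finset.Ioc A (A + N), χ (a : ZMod q) := by
  rw [S_eq_range, sum_Ioc_nat]
  apply sum_congr rfl
  intro i _
  push_cast
  rfl

lemma S_mod {q : ℕ} (hq : 1 ≤ q) (χ : DirichletCharacter ℂ q) (M : ℤ) (N : ℕ) :
    ∃ A : ℕ, S χ M N = S χ (A : ℤ) N := by
  have hq0 : (q : ℤ) ≠ 0 := by exact_mod_cast (by omega : q ≠ 0)
  refine ⟨(M % q).toNat, ?_⟩
  have h1 : ((M % q).toNat : ℤ) = M % q := Int.toNat_of_nonneg (Int.emod_nonneg _ hq0)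
  rw [S_eq_range, S_eq_range, h1]
  apply sum_congr rfl
  intro i _
  congr 1
  push_cast
  rfl

lemma S_zero {q : ℕ} (χ : DirichletCharacter ℂ q) (M : ℤ) : S χ M 0 = 0 := by
  simp [S]

lemma S_add {q : ℕ} (χ : DirichletCharacter ℂ q) (M : ℤ) (a b : ℕ) :
    S χ M (a + b) = S χ M a + S χ (M + a) b := by
  rw [S_eq_range, S_eq_range, S_eq_range, sum_range_add]
  congr 1
  apply sum_congr rfl
  intro i _
  congr 1
  push_cast
  ring

lemma norm_S_le_N {q : ℕ} (χ : DirichletCharacter ℂ q) (M : ℤ) (N : ℕ) : ‖S χ M N‖ ≤ N := by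
  rw [S_eq_range]
  refine (norm_sum_le _ _).trans ?_
  calc ∑ i ∈ range N, ‖χ ((M + 1 + i : ℤ) : ZMod q)‖ ≤ ∑ i ∈ range N, (1 : ℝ) :=
        sum_le_sum (fun i _ => DirichletCharacter.norm_le_one _ _)
    _ = N := by simp

/-- cutting into pieces -/
lemma pieces {q : ℕ} (χ : DirichletCharacter ℂ q) (L : ℕ) (B : ℝ) (hB : 0 ≤ B)
    (h : ∀ M : ℤ, ∀ N : ℕ, N ≤ L → ‖S χ M N‖ ≤ B) (k : ℕ) :
    ∀ M : ℤ, ∀ N : ℕ, N ≤ k * L → ‖S χ M N‖ ≤ k * B := by
  induction k with
  | zero =>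
    intro M N hN
    have : N = 0 := by omega
    subst this
    simp [S_zero]
  | succ k ih =>
    intro M N hN
    push_cast
    rcases le_total N L with h1 | h1
    · have h2 := h M N h1
      have h3 : 0 ≤ (k : ℝ) * B := by positivity
      nlinarith
    · obtain ⟨N', rfl⟩ := Nat.exists_eq_add_of_le h1
      rw [S_add]
      refine (norm_add_le _ _).trans ?_
      have h2 := h M L le_rfl
      have h3 := ih (M + L) N' (by rw [Nat.succ_mul] at hN; omega)
      linarith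

/-- cutting into pieces, real form -/
lemma pieces_real {q : ℕ} (χ : DirichletCharacter ℂ q) (x B : ℝ) (hx : 1 ≤ x) (hB : 0 ≤ B)
    (h : ∀ M : ℤ, ∀ N : ℕ, (N : ℝ) ≤ x → ‖S χ M N‖ ≤ B) (M : ℤ) (N : ℕ) :
    ‖S χ M N‖ ≤ (2 * N / x + 1) * B := by
  have hx0 : 0 < x := by linarith
  set L : ℕ := ⌊x⌋₊ with hL
  have hL1 : 1 ≤ L := by rw [hL]; exact Nat.le_floor (by exact_mod_cast hx)
  have hLx : (L : ℝ) ≤ x := Nat.floor_le hx0.le
  have hL2 : x / 2 ≤ L := by
    have h1 := Nat.lt_floor_add_one x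
    rw [← hL] at h1
    have h2 : (1 : ℝ) ≤ L := by exact_mod_cast hL1
    linarith
  have h1 := pieces χ L B hB (fun M N hN => h M N (le_trans (by exact_mod_cast hN) hLx)) (N / L + 1) M N
    (by
      have := Nat.lt_div_mul_add (a := N) (b := L) (by omega)
      rw [Nat.add_mul, one_mul]
      omega)
  refine h1.trans (mul_le_mul_of_nonneg_right ?_ hB)
  push_cast
  have h2 : ((N / L : ℕ) : ℝ) ≤ (N : ℝ) / L := Nat.cast_div_le
  have h3 : (N : ℝ) / L ≤ 2 * N / x := by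
    have hL0 : (0 : ℝ) < L := by exact_mod_cast (by omega : 0 < L)
    rw [div_le_div_iff₀ hL0 hx0]
    have hN0 : (0 : ℝ) ≤ N := Nat.cast_nonneg N
    nlinarith
  linarith

/-- Pólya–Vinogradov -/
lemma pv {q : ℕ} (hq : 2 ≤ q) (χ : DirichletCharacter ℂ q) (hχ : χ.IsPrimitive) (M : ℤ) (N : ℕ) :
    ‖S χ M N‖ ≤ 2 * (√(q : ℝ) * (1 + Real.log q)) := by
  obtain ⟨A, hA⟩ := S_mod (by omega : 1 ≤ q) χ M N
  rw [hA, S_natCast]
  have h1 : ∑ a ∈ Finset.Ioc A (A + N), χ (a : ZMod q) =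
      ∑ n ∈ Finset.Icc 1 (A + N), χ (n : ZMod q) - ∑ n ∈ Finset.Icc 1 A, χ (n : ZMod q) := by
    have h2 : ∀ m : ℕ, Finset.Icc 1 m = Finset.Ioc 0 m := fun m => by
      ext x; simp [Finset.mem_Icc, Finset.mem_Ioc, Nat.succ_le_iff]
    rw [h2, h2, eq_sub_iff_add_eq, add_comm]
    exact Finset.sum_Ioc_consecutive _ (Nat.zero_le _) (by omega)
  rw [h1]
  refine (norm_sub_le _ _).trans ?_
  have e1 := H343.PVaux.PV_plain q (A + N) hq χ hχ
  have e2 := H343.PVaux.PV_plain q A hq χ hχ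
  linarith

lemma one_add_log_le (x : ℝ) (hx : 1 ≤ x) : 1 + Real.log x ≤ 4 * x ^ (1 / 4 : ℝ) := by
  have h0 : 0 < x := by linarith
  have h1 : Real.log (x ^ (1 / 4 : ℝ)) ≤ x ^ (1 / 4 : ℝ) - 1 :=
    Real.log_le_sub_one_of_pos (Real.rpow_pos_of_pos h0 _)
  rw [Real.log_rpow h0] at h1
  linarith

lemma pv' {q : ℕ} (hq : 2 ≤ q) (χ : DirichletCharacter ℂ q) (hχ : χ.IsPrimitive) (M : ℤ) (N : ℕ) :
    ‖S χ M N‖ ≤ 8 * (q : ℝ) ^ (3 / 4 : ℝ) := by
  have hq1 : (1 : ℝ) ≤ q := by exact_mod_cast (by omega : 1 ≤ q)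
  have hq0 : (0 : ℝ) < q := by linarith
  refine (pv hq χ hχ M N).trans ?_
  have h1 := one_add_log_le q hq1
  have h2 : (q : ℝ) ^ (3 / 4 : ℝ) = √(q : ℝ) * (q : ℝ) ^ (1 / 4 : ℝ) := by
    rw [Real.sqrt_eq_rpow, ← Real.rpow_add hq0]; norm_num
  rw [h2]
  have h3 : 0 ≤ √(q : ℝ) := Real.sqrt_nonneg _
  nlinarith

/-- reduction to the primitive character -/
lemma imprimitive {q : ℕ} (hq : 1 ≤ q) (χ : DirichletCharacter ℂ q) (N : ℕ) (B : ℝ)
    (hB : ∀ M : ℤ, ∀ N' : ℕ, N' ≤ N → ‖S χ.primitiveCharacter M N'‖ ≤ B) (M : ℤ) :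
    ‖S χ M N‖ ≤ (q.divisors.card : ℝ) * B := by
  have : NeZero q := ⟨by omega⟩
  have hB0 : 0 ≤ B := (norm_nonneg _).trans (hB 0 0 (Nat.zero_le _))
  obtain ⟨A, hA⟩ := S_mod hq χ M N
  rw [hA, S_natCast]
  obtain ⟨k, hk⟩ := χ.conductor_dvd_level
  have hk1 : 1 ≤ k := by
    rcases Nat.eq_zero_or_pos k with h | h
    · rw [h, mul_zero] at hk; omega
    · exact h
  have hkq : k ∣ q := ⟨χ.conductor, by rw [mul_comm]; exact hk⟩
  have hval : ∀ n : ℕ, χ (n : ZMod q) =
      if n.Coprime k then χ.primitiveCharacter (n : ZMod χ.conductor) else 0 := by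
    intro n
    by_cases hn : n.Coprime q
    · have hnk : n.Coprime k := Nat.Coprime.coprime_dvd_right hkq hn
      rw [if_pos hnk]
      have h1 := χ.primitiveCharacter_apply_of_isCoprime (a := (n : ℤ))
        (Nat.isCoprime_iff_coprime.mpr hn)
      simpa using h1.symm
    · have h0 : χ (n : ZMod q) = 0 := by
        apply χ.map_nonunit
        rwa [ZMod.isUnit_iff_coprime]
      rw [h0]
      split_ifs with hnk
      · symm
        apply MulChar.map_nonunit
        rw [ZMod.isUnit_iff_coprime]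
        intro hc
        apply hn
        rw [hk]
        exact Nat.Coprime.mul_right hc hnk
      · rfl
  have hI : ∀ m : ℕ, ∑ a ∈ Finset.Icc 1 m, χ (a : ZMod q) =
      ∑ d ∈ k.divisors, ((ArithmeticFunction.moebius d : ℤ) : ℂ) *
        (χ.primitiveCharacter (d : ZMod χ.conductor) *
          ∑ b ∈ Finset.Icc 1 (m / d), χ.primitiveCharacter (b : ZMod χ.conductor)) := by
    intro m
    have h2 : ∑ a ∈ Finset.Icc 1 m, χ (a : ZMod q) =
        ∑ a ∈ Finset.Icc 1 m, (if a.Coprime k then (1 : ℂ) else 0) *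
          χ.primitiveCharacter (a : ZMod χ.conductor) := by
      apply sum_congr rfl
      intro a _
      rw [hval]
      split_ifs <;> simp
    rw [h2]
    simp_rw [H343.Gauss.coprime_indicator _ k hk1]
    have h3 : ∀ a ∈ Finset.Icc 1 m, (∑ d ∈ k.divisors.filter (fun d => d ∣ a),
        ((ArithmeticFunction.moebius d : ℤ) : ℂ)) * χ.primitiveCharacter (a : ZMod χ.conductor) =
        ∑ d ∈ k.divisors, if d ∣ a then ((ArithmeticFunction.moebius d : ℤ) : ℂ) *
          χ.primitiveCharacter (a : ZMod χ.conductor) else 0 := by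
      intro a _
      rw [sum_mul, sum_filter]
    rw [sum_congr rfl h3, sum_comm]
    apply sum_congr rfl
    intro d hd
    have hd1 : 1 ≤ d := Nat.pos_of_mem_divisors hd
    rw [← sum_filter, ← mul_sum, H343.PVaux.sum_multiples_Icc d m hd1]
    congr 1
    rw [mul_sum]
    apply sum_congr rfl
    intro b _
    push_cast
    rw [map_mul]
  have hIcc : ∀ (g : ℕ → ℂ) (a b : ℕ), a ≤ b → ∑ n ∈ Finset.Icc 1 b, g n - ∑ n ∈ Finset.Icc 1 a, g n =
      ∑ n ∈ Finset.Ioc a b, g n := by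
    intro g a b hab
    have h2 : ∀ m : ℕ, Finset.Icc 1 m = Finset.Ioc 0 m := fun m => by
      ext x; simp [Finset.mem_Icc, Finset.mem_Ioc, Nat.succ_le_iff]
    rw [h2, h2, sub_eq_iff_eq_add, add_comm]
    exact (Finset.sum_Ioc_consecutive _ (Nat.zero_le _) hab).symm
  have h1 : ∑ a ∈ Finset.Ioc A (A + N), χ (a : ZMod q) =
      ∑ d ∈ k.divisors, ((ArithmeticFunction.moebius d : ℤ) : ℂ) *
        (χ.primitiveCharacter (d : ZMod χ.conductor) *
          S χ.primitiveCharacter ((A / d : ℕ) : ℤ) ((A + N) / d - A / d)) := by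
    rw [← hIcc _ A (A + N) (by omega), hI, hI, ← sum_sub_distrib]
    apply sum_congr rfl
    intro d _
    rw [← mul_sub, ← mul_sub, S_natCast]
    have hle : A / d ≤ (A + N) / d := Nat.div_le_div_right (by omega)
    rw [hIcc _ _ _ hle, Nat.add_sub_cancel' hle]
  rw [h1]
  refine (norm_sum_le _ _).trans ?_
  have h4 : ∀ d ∈ k.divisors, ‖((ArithmeticFunction.moebius d : ℤ) : ℂ) *
      (χ.primitiveCharacter (d : ZMod χ.conductor) *
          S χ.primitiveCharacter ((A / d : ℕ) : ℤ) ((A + N) / d - A / d))‖ ≤ B := by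
    intro d hd
    have hd1 : 1 ≤ d := Nat.pos_of_mem_divisors hd
    rw [norm_mul, norm_mul]
    have h2 : ‖((ArithmeticFunction.moebius d : ℤ) : ℂ)‖ ≤ 1 := by
      rw [Complex.norm_intCast]
      exact_mod_cast ArithmeticFunction.abs_moebius_le_one
    have h3 : ‖χ.primitiveCharacter (d : ZMod χ.conductor)‖ ≤ 1 := DirichletCharacter.norm_le_one _ _
    have h5 : (A + N) / d - A / d ≤ N := by
      have : (A + N) / d ≤ A / d + N := by
        calc (A + N) / d ≤ (A + d * N) / d := Nat.div_le_div_right (by nlinarith)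
          _ = A / d + N := Nat.add_mul_div_left _ _ (by omega)
      omega
    have h6 := hB ((A / d : ℕ) : ℤ) _ h5
    calc _ ≤ 1 * (1 * B) := by gcongr
      _ = B := by ring
  calc _ ≤ ∑ d ∈ k.divisors, B := sum_le_sum h4
    _ = (k.divisors.card : ℝ) * B := by rw [sum_const, nsmul_eq_mul]
    _ ≤ _ := by
      apply mul_le_mul_of_nonneg_right _ hB0
      exact_mod_cast Finset.card_le_card (Nat.divisors_subset_of_dvd (by omega) hkq)

lemma primitive_cubic {q : ℕ} (hq : 1 ≤ q) (χ : DirichletCharacter ℂ q) (h3 : χ ^ 3 = 1)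
    (h1 : χ ≠ 1) : χ.primitiveCharacter ^ 3 = 1 ∧ χ.primitiveCharacter ≠ 1 := by
  have : NeZero q := ⟨by omega⟩
  have hc := DirichletCharacter.changeLevel_primitiveCharacter χ
  constructor
  · apply DirichletCharacter.changeLevel_injective χ.conductor_dvd_level
    rw [map_pow, hc, h3, map_one]
  · intro h
    apply h1
    rw [← hc, h, map_one]

lemma good_three_le {q : ℕ} (hq : 1 ≤ q) (hg : Good q) (χ : DirichletCharacter ℂ q) (h1 : χ ≠ 1) :
    3 ≤ q := by
  by_contra h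
  have : q = 1 ∨ q = 2 := by omega
  rcases this with rfl | rfl
  · exact h1 (DirichletCharacter.level_one χ)
  · rcases hg 2 Nat.prime_two (dvd_refl 2) with h | h <;> omega

end Pool.Agent.R524.Cubic
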